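import Mathlib

/-!
# Nonzero lowering maps

For every field, every `d ≥ 1` and pairwise distinct `θ_0, …, θ_d` with the ratio
`(θ_{i-2} - θ_{i+1}) / (θ_{i-1} - θ_i)` independent of `i`, there is a nonzero lowering map on the
polynomials of degree at most `d`.  It sends `τ_i` to `Θ_i τ_{i-1}` and `ρ_i` to `Θ_i ρ_{i-1}`,
where `Θ_i` is the sum of `θ_h - θ_{d-h}` over `h < i`.
-/

open Polynomial

universe u

namespace Pool.Agent.Results.MP_87e037_al.Lowering

variable {K : Type u} [Field K]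

/-- `τ_i = (X - θ_0) ⋯ (X - θ_{i-1})`. -/
noncomputable def tau (θ : ℕ → K) (i : ℕ) : K[X] := ∏ h ∈ Finset.range i, (X - C (θ h))

/-- `ρ_i = (X - θ_d) (X - θ_{d-1}) ⋯ (X - θ_{d-i+1})`, for `i ≤ d`. -/
noncomputable def rho (θ : ℕ → K) (d i : ℕ) : K[X] :=
  ∏ h ∈ Finset.range i, (X - C (θ (d - h)))

lemma tau_succ (θ : ℕ → K) (i : ℕ) : tau θ (i + 1) = tau θ i * (X - C (θ i)) :=
  Finset.prod_range_succ _ _

lemma rho_succ (θ : ℕ → K) (d i : ℕ) :
    rho θ d (i + 1) = rho θ d i * (X - C (θ (d - i))) :=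
  Finset.prod_range_succ _ _

lemma degree_tau (θ : ℕ → K) (i : ℕ) : (tau θ i).degree = i := by
  unfold tau
  rw [degree_prod]
  simp

lemma degree_rho (θ : ℕ → K) (d i : ℕ) : (rho θ d i).degree = i := by
  unfold rho
  rw [degree_prod]
  simp

/-- `τ_i` as a vector of the space of polynomials of degree at most `d`. -/
noncomputable def tauV (θ : ℕ → K) (d i : ℕ) (h : i ≤ d) : degreeLE K (d : WithBot ℕ) :=
  ⟨tau θ i, by rw [mem_degreeLE, degree_tau]; exact_mod_cast h⟩

/-- `ρ_i` as a vector of the space of polynomials of degree at most `d`. -/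
noncomputable def rhoV (θ : ℕ → K) (d i : ℕ) (h : i ≤ d) : degreeLE K (d : WithBot ℕ) :=
  ⟨rho θ d i, by rw [mem_degreeLE, degree_rho]; exact_mod_cast h⟩

/-- Lowering maps on the space `V` of polynomials of degree at most `d`. -/
def IsLowering (θ : ℕ → K) (d : ℕ)
    (Ψ : degreeLE K (d : WithBot ℕ) →ₗ[K] degreeLE K (d : WithBot ℕ)) : Prop :=
  Ψ (tauV θ d 0 (Nat.zero_le d)) = 0 ∧ Ψ (rhoV θ d 0 (Nat.zero_le d)) = 0 ∧
  (∀ (i : ℕ) (h : i + 1 ≤ d),
    Ψ (tauV θ d (i + 1) h) ∈ Submodule.span K {tauV θ d i (Nat.le_of_succ_le h)}) ∧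
  (∀ (i : ℕ) (h : i + 1 ≤ d),
    Ψ (rhoV θ d (i + 1) h) ∈ Submodule.span K {rhoV θ d i (Nat.le_of_succ_le h)})

/-! ### The scalars -/

/-- `Θ_i = ∑_{h < i} (θ_h - θ_{d-h})`. -/
def Th (θ : ℕ → K) (d i : ℕ) : K := ∑ h ∈ Finset.range i, (θ h - θ (d - h))

lemma Th_zero (θ : ℕ → K) (d : ℕ) : Th θ d 0 = 0 := Finset.sum_range_zero _

lemma Th_succ (θ : ℕ → K) (d i : ℕ) : Th θ d (i + 1) = Th θ d i + (θ i - θ (d - i)) :=
  Finset.sum_range_succ _ _

lemma Th_top (θ : ℕ → K) (d : ℕ) : Th θ d (d + 1) = 0 := by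
  unfold Th
  rw [Finset.sum_sub_distrib, sub_eq_zero]
  have := Finset.sum_range_reflect θ (d + 1)
  rw [← this]
  apply Finset.sum_congr rfl
  intro h hh
  rw [Finset.mem_range] at hh
  congr 1

lemma Th_symm (θ : ℕ → K) (d i : ℕ) (h : i ≤ d + 1) : Th θ d (d + 1 - i) = Th θ d i := by
  induction i with
  | zero => rw [Nat.sub_zero, Th_top, Th_zero]
  | succ i ih =>
    have ih' := ih (by omega)
    have e : d + 1 - i = (d + 1 - (i + 1)) + 1 := by omega
    rw [e, Th_succ] at ih'
    have e2 : d + 1 - (i + 1) = d - i := by omega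
    rw [e2] at ih' ⊢
    have e3 : d - (d - i) = i := by omega
    rw [e3] at ih'
    rw [Th_succ, ← ih']
    ring

/-- The three term recurrence. -/
def Rec (θ : ℕ → K) (d : ℕ) (β γ : K) : Prop :=
  ∀ i, i + 2 ≤ d → θ i - β * θ (i + 1) + θ (i + 2) = γ

lemma Th_rec (θ : ℕ → K) (d : ℕ) (β γ : K) (h : Rec θ d β γ) :
    ∀ i, i + 2 ≤ d + 1 → Th θ d i - β * Th θ d (i + 1) + Th θ d (i + 2) =
      Th θ d 0 - β * Th θ d 1 + Th θ d 2 := by
  intro i
  induction i with
  | zero => intro _; rfl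
  | succ i ih =>
    intro hi
    rw [← ih (by omega)]
    have h1 := h i (by omega)
    have h2 := h (d - (i + 2)) (by omega)
    have e1 : d - (i + 2) + 1 = d - (i + 1) := by omega
    have e2 : d - (i + 2) + 2 = d - i := by omega
    rw [e1, e2] at h2
    rw [Th_succ θ d (i + 2), Th_succ θ d (i + 1), Th_succ θ d i]
    have : (θ i - β * θ (i + 1) + θ (i + 2)) -
        (θ (d - (i + 2)) - β * θ (d - (i + 1)) + θ (d - i)) = 0 := by
      rw [h1, h2, sub_self]
    linear_combination this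

/-- The key identity. -/
lemma key (θ : ℕ → K) (d : ℕ) (β γ : K) (h : Rec θ d β γ) :
    ∀ n a, a + n + 1 ≤ d →
      (Th θ d (a + n) - Th θ d (a + 1)) * (θ a - θ (a + n + 1)) =
        (Th θ d (a + n + 1) - Th θ d a) * (θ (a + 1) - θ (a + n)) := by
  intro n
  induction n using Nat.strong_induction_on with
  | _ n ih =>
    intro a ha
    match n, ih, ha with
    | 0, _, _ => simp only [Nat.add_zero]; ring
    | 1, _, _ => simp
    | (n + 2), ih, ha =>
      have h0 := ih n (by omega) (a + 1) (by omega)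
      have r1 := h a (by omega)
      have r2 := h (a + 1 + n) (by omega)
      have t1 := Th_rec θ d β γ h a (by omega)
      have t2 := Th_rec θ d β γ h (a + 1 + n) (by omega)
      have e1 : a + (n + 2) + 1 = a + 1 + n + 2 := by omega
      have e2 : a + (n + 2) = a + 1 + n + 1 := by omega
      have e3 : a + 1 + 1 = a + 2 := by omega
      rw [e1, e2]
      rw [e3] at h0
      -- outer = β inner - innermost
      have rr : θ a - θ (a + 1 + n + 2) =
          β * (θ (a + 1) - θ (a + 1 + n + 1)) - (θ (a + 2) - θ (a + 1 + n)) := by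
        linear_combination r1 - r2
      have tt : Th θ d (a + 1 + n + 2) - Th θ d a =
          β * (Th θ d (a + 1 + n + 1) - Th θ d (a + 1)) -
            (Th θ d (a + 1 + n) - Th θ d (a + 2)) := by
        linear_combination t2 - t1
      rw [rr, tt]
      linear_combination h0

lemma key' (θ : ℕ → K) (d : ℕ) (β γ : K) (h : Rec θ d β γ) (a b : ℕ) (ha : a + 1 ≤ d)
    (hb : b + 1 ≤ d) :
    (Th θ d b - Th θ d (a + 1)) * (θ a - θ (b + 1)) =
      (Th θ d (b + 1) - Th θ d a) * (θ (a + 1) - θ b) := by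
  rcases le_total a b with hab | hab
  · obtain ⟨n, rfl⟩ := Nat.exists_eq_add_of_le hab
    exact key θ d β γ h n a hb
  · obtain ⟨n, rfl⟩ := Nat.exists_eq_add_of_le hab
    have := key θ d β γ h n b ha
    linear_combination -this

/-! ### The transition coefficients -/

/-- The coefficients of `ρ_i` in the basis `τ_j`. -/
def co (θ : ℕ → K) (d : ℕ) : ℕ → ℕ → K
  | 0, 0 => 1
  | 0, _ + 1 => 0
  | i + 1, 0 => (θ 0 - θ (d - i)) * co θ d i 0
  | i + 1, j + 1 => co θ d i j + (θ (j + 1) - θ (d - i)) * co θ d i (j + 1)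

lemma co_lt (θ : ℕ → K) (d : ℕ) : ∀ i j, i < j → co θ d i j = 0 := by
  intro i
  induction i with
  | zero =>
    intro j hj
    obtain ⟨j, rfl⟩ : ∃ k, j = k + 1 := ⟨j - 1, by omega⟩
    rfl
  | succ i ih =>
    intro j hj
    obtain ⟨j, rfl⟩ : ∃ k, j = k + 1 := ⟨j - 1, by omega⟩
    rw [co, ih j (by omega), ih (j + 1) (by omega)]
    ring

lemma co_diag (θ : ℕ → K) (d : ℕ) : ∀ i, co θ d i i = 1 := by
  intro i
  induction i with
  | zero => rfl
  | succ i ih => rw [co, ih, co_lt θ d i (i + 1) (by omega)]; ring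

lemma rho_eq (θ : ℕ → K) (d i : ℕ) :
    rho θ d i = ∑ j ∈ Finset.range (i + 1), C (co θ d i j) * tau θ j := by
  induction i with
  | zero => simp [rho, tau, co]
  | succ i ih =>
    rw [rho_succ, ih, Finset.sum_mul]
    have h1 : ∀ j ∈ Finset.range (i + 1), C (co θ d i j) * tau θ j * (X - C (θ (d - i))) =
        C (co θ d i j) * tau θ (j + 1) + C ((θ j - θ (d - i)) * co θ d i j) * tau θ j := by
      intro j _
      rw [tau_succ, C_mul, C_sub]
      ring
    rw [Finset.sum_congr rfl h1, Finset.sum_add_distrib]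
    rw [Finset.sum_range_succ' (fun j => C (co θ d (i + 1) j) * tau θ j) (i + 1)]
    have h2 : ∑ j ∈ Finset.range (i + 1), C ((θ j - θ (d - i)) * co θ d i j) * tau θ j =
        ∑ j ∈ Finset.range (i + 1),
          C ((θ (j + 1) - θ (d - i)) * co θ d i (j + 1)) * tau θ (j + 1) +
        C ((θ 0 - θ (d - i)) * co θ d i 0) * tau θ 0 := by
      rw [← Finset.sum_range_succ' (fun j => C ((θ j - θ (d - i)) * co θ d i j) * tau θ j) (i + 1),
        Finset.sum_range_succ _ (i + 1), co_lt θ d i (i + 1) (by omega)]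
      simp
    rw [h2, ← add_assoc, ← Finset.sum_add_distrib]
    congr 1
    apply Finset.sum_congr rfl
    intro j _
    rw [co, C_add]
    ring

/-- The crucial relation. -/
lemma star (θ : ℕ → K) (d : ℕ) (hθ : Set.InjOn θ (Set.Iic d)) (β γ : K) (h : Rec θ d β γ) :
    ∀ i j, j ≤ i → i + 1 ≤ d →
      Th θ d (j + 1) * co θ d (i + 1) (j + 1) = Th θ d (i + 1) * co θ d i j := by
  intro i
  induction i using Nat.strong_induction_on with
  | _ i ih =>
    intro j hj hi
    rcases Nat.eq_or_lt_of_le hj with rfl | hlt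
    · rw [co_diag, co_diag]
    · obtain ⟨m, rfl⟩ : ∃ k, i = k + 1 := ⟨i - 1, by omega⟩
      have hjm : j ≤ m := by omega
      have s1 := ih m (by omega) j hjm (by omega)
      -- the relation (‡)
      have s2 : (Th θ d (m + 1) - Th θ d j) * co θ d (m + 1) j =
          Th θ d (m + 1) * ((θ j - θ (d - m)) * co θ d m j) := by
        rcases Nat.eq_zero_or_pos j with rfl | hjpos
        · rw [Th_zero, co, sub_zero]
        · obtain ⟨k, rfl⟩ : ∃ k, j = k + 1 := ⟨j - 1, by omega⟩
          have s3 := ih m (by omega) k (by omega) (by omega)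
          have s4 : co θ d (m + 1) (k + 1) =
            co θ d m k + (θ (k + 1) - θ (d - m)) * co θ d m (k + 1) := rfl
          linear_combination Th θ d (m + 1) * s4 - s3
      have e := key' θ d β γ h j (d - (m + 1)) (by omega) (by omega)
      have e1 : d - (m + 1) + 1 = d - m := by omega
      have e2 : Th θ d (d - (m + 1)) = Th θ d (m + 1 + 1) := by
        rw [← Th_symm θ d (m + 1 + 1) (by omega)]
        congr 1
        omega
      have e3 : Th θ d (d - m) = Th θ d (m + 1) := by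
        rw [← Th_symm θ d (m + 1) (by omega)]
        congr 1
        omega
      rw [e1, e2, e3] at e
      have c1 : co θ d (m + 1 + 1) (j + 1) =
          co θ d (m + 1) j + (θ (j + 1) - θ (d - (m + 1))) * co θ d (m + 1) (j + 1) := rfl
      -- it suffices to prove (†)
      suffices hd : Th θ d (m + 1) * ((θ (j + 1) - θ (d - (m + 1))) * co θ d m j) =
          (Th θ d (m + 1 + 1) - Th θ d (j + 1)) * co θ d (m + 1) j by
        rw [c1]
        linear_combination hd + (θ (j + 1) - θ (d - (m + 1))) * s1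
      by_cases hne : θ j - θ (d - m) = 0
      · -- the exceptional case `j = d - m`
        have hjd : j = d - m := hθ (by simp; omega) (by simp) (sub_eq_zero.1 hne)
        obtain ⟨k, rfl⟩ : ∃ k, j = k + 2 := ⟨j - 2, by omega⟩
        obtain ⟨n, rfl⟩ : ∃ n, m = n + 1 := ⟨m - 1, by omega⟩
        have s5 := ih n (by omega) (k + 1) (by omega) (by omega)
        have s6 := ih n (by omega) k (by omega) (by omega)
        have c2 : co θ d (n + 1) (k + 1) =
          co θ d n k + (θ (k + 1) - θ (d - n)) * co θ d n (k + 1) := rfl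
        have c3 : co θ d (n + 1 + 1) (k + 2) =
          co θ d (n + 1) (k + 1) + (θ (k + 2) - θ (d - (n + 1))) * co θ d (n + 1) (k + 2) := rfl
        rw [hne, zero_mul, add_zero] at c3
        have i1 : d - (n + 1 + 1) = k + 1 := by omega
        have i2 : d - n = k + 2 + 1 := by omega
        have i3 : Th θ d (n + 1) = Th θ d (k + 2 + 1) := by
          rw [← Th_symm θ d (n + 1) (by omega)]
          congr 1
          omega
        have i4 : Th θ d (n + 1 + 1) = Th θ d (k + 2) := by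
          rw [← Th_symm θ d (n + 1 + 1) (by omega)]
          congr 1
          omega
        have i5 : Th θ d (n + 1 + 1 + 1) = Th θ d (k + 1) := by
          rw [← Th_symm θ d (n + 1 + 1 + 1) (by omega)]
          congr 1
          omega
        rw [c3, i1, i4, i5]
        rw [i2] at c2
        rw [i3] at s5 s6
        rw [show k + 1 + 1 = k + 2 from rfl] at s5
        linear_combination Th θ d (k + 2 + 1) * c2 - s6 + (θ (k + 2 + 1) - θ (k + 1)) * s5
      · have : (θ j - θ (d - m)) *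
            (Th θ d (m + 1) * ((θ (j + 1) - θ (d - (m + 1))) * co θ d m j)) =
          (θ j - θ (d - m)) * ((Th θ d (m + 1 + 1) - Th θ d (j + 1)) * co θ d (m + 1) j) := by
          linear_combination (-(θ (j + 1) - θ (d - (m + 1)))) * s2 - co θ d (m + 1) j * e
        exact mul_left_cancel₀ hne this

lemma exists_rec (θ : ℕ → K) (d : ℕ) (hθ : Set.InjOn θ (Set.Iic d))
    (hr : ∀ i j, 2 ≤ i → i + 1 ≤ d → 2 ≤ j → j + 1 ≤ d →
      (θ (i - 2) - θ (i + 1)) * (θ (i - 1) - θ i)⁻¹ =
        (θ (j - 2) - θ (j + 1)) * (θ (j - 1) - θ j)⁻¹) : ∃ β γ, Rec θ d β γ := by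
  rcases Nat.lt_or_ge d 3 with hd | hd
  · refine ⟨0, θ 0 + θ 2, ?_⟩
    intro i hi
    have : i = 0 := by omega
    subst this
    ring
  · refine ⟨(θ 0 - θ 3) * (θ 1 - θ 2)⁻¹ - 1,
      θ 0 - ((θ 0 - θ 3) * (θ 1 - θ 2)⁻¹ - 1) * θ 1 + θ 2, ?_⟩
    intro i
    induction i with
    | zero => intro _; rfl
    | succ i ih =>
      intro hi
      have h1 := ih (by omega)
      have h2 := hr (i + 2) 2 (by omega) (by omega) (by omega) (by omega)
      simp only [Nat.add_sub_cancel, Nat.sub_self] at h2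
      have e1 : i + 2 - 1 = i + 1 := by omega
      have e2 : 2 - 1 = 1 := rfl
      rw [e1, e2] at h2
      set b : K := (θ 0 - θ (2 + 1)) * (θ 1 - θ 2)⁻¹ with hb
      have hne : θ (i + 1) - θ (i + 2) ≠ 0 := by
        intro h0
        have := hθ (by simp; omega) (by simp; omega) (sub_eq_zero.1 h0)
        omega
      have h3 : θ i - θ (i + 2 + 1) = b * (θ (i + 1) - θ (i + 2)) := by
        rw [← h2, mul_assoc, inv_mul_cancel₀ hne, mul_one]
      rw [← h1]
      have e3 : i + 1 + 1 = i + 2 := rfl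
      have e4 : i + 1 + 2 = i + 2 + 1 := rfl
      rw [e3, e4]
      linear_combination (-1 : K) * h3

/-! ### The map -/

/-- The `τ_i` as a polynomial sequence. -/
noncomputable def seq (θ : ℕ → K) : Polynomial.Sequence K := ⟨tau θ, degree_tau θ⟩

lemma seq_apply (θ : ℕ → K) (i : ℕ) : seq θ i = tau θ i := rfl

lemma seq_unit (θ : ℕ → K) (i : ℕ) : IsUnit (seq θ i).leadingCoeff := by
  rw [isUnit_iff_ne_zero, leadingCoeff_ne_zero]
  exact (seq θ).ne_zero i

/-- The map on all polynomials. -/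
noncomputable def T (θ : ℕ → K) (d : ℕ) : K[X] →ₗ[K] K[X] :=
  ((seq θ).basis (seq_unit θ)).constr K (fun i => Th θ d i • tau θ (i - 1))

lemma T_tau (θ : ℕ → K) (d i : ℕ) : T θ d (tau θ i) = Th θ d i • tau θ (i - 1) := by
  have h := ((seq θ).basis (seq_unit θ)).constr_basis K (fun i => Th θ d i • tau θ (i - 1)) i
  rw [Polynomial.Sequence.basis_eq_self] at h
  exact h

lemma T_rho (θ : ℕ → K) (d : ℕ) (hθ : Set.InjOn θ (Set.Iic d)) (β γ : K) (h : Rec θ d β γ)
    (i : ℕ) (hi : i + 1 ≤ d) :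
    T θ d (rho θ d (i + 1)) = Th θ d (i + 1) • rho θ d i := by
  rw [rho_eq, rho_eq, map_sum, Finset.sum_range_succ', Finset.smul_sum]
  have h0 : T θ d (C (co θ d (i + 1) 0) * tau θ 0) = 0 := by
    rw [← smul_eq_C_mul, map_smul, T_tau, Th_zero, zero_smul, smul_zero]
  rw [h0, add_zero]
  apply Finset.sum_congr rfl
  intro j hj
  rw [Finset.mem_range] at hj
  rw [← smul_eq_C_mul, ← smul_eq_C_mul, map_smul, T_tau, smul_smul, smul_smul,
    Nat.add_sub_cancel, mul_comm, star θ d hθ β γ h i j (by omega) hi]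

lemma T_mem (θ : ℕ → K) (d : ℕ) (p : K[X]) (hp : p ∈ degreeLE K (d : WithBot ℕ)) :
    T θ d p ∈ degreeLE K (d : WithBot ℕ) := by
  rw [← (seq θ).span_degreeLE (fun i _ => seq_unit θ i)] at hp
  induction hp using Submodule.span_induction with
  | mem x hx =>
    obtain ⟨i, hi, rfl⟩ := hx
    rw [seq_apply, T_tau]
    apply Submodule.smul_mem
    rw [mem_degreeLE, degree_tau]
    have : i ≤ d := hi
    exact_mod_cast (Nat.sub_le i 1).trans this
  | zero => rw [map_zero]; exact Submodule.zero_mem _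
  | add x y _ _ hx hy => rw [map_add]; exact Submodule.add_mem _ hx hy
  | smul a x _ hx => rw [map_smul]; exact Submodule.smul_mem _ _ hx

/-- For every field, every `d ≥ 1` and every sequence of pairwise distinct `θ_0, …, θ_d` with
constant ratio there is a nonzero lowering map. -/
theorem result (K : Type u) [Field K] (d : ℕ) (hd : 1 ≤ d) (θ : ℕ → K)
    (hθ : Set.InjOn θ (Set.Iic d))
    (hr : ∀ i j, 2 ≤ i → i + 1 ≤ d → 2 ≤ j → j + 1 ≤ d →
      (θ (i - 2) - θ (i + 1)) * (θ (i - 1) - θ i)⁻¹ =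
        (θ (j - 2) - θ (j + 1)) * (θ (j - 1) - θ j)⁻¹) :
    ∃ Ψ : degreeLE K (d : WithBot ℕ) →ₗ[K] degreeLE K (d : WithBot ℕ),
      IsLowering θ d Ψ ∧ Ψ ≠ 0 := by
  obtain ⟨β, γ, hrec⟩ := exists_rec θ d hθ hr
  have hT0 : T θ d (tau θ 0) = 0 := by rw [T_tau, Th_zero, zero_smul]
  refine ⟨(T θ d).restrict (T_mem θ d), ⟨?_, ?_, ?_, ?_⟩, ?_⟩
  · exact Subtype.ext hT0
  · exact Subtype.ext hT0
  · intro i hi
    rw [Submodule.mem_span_singleton]
    exact ⟨Th θ d (i + 1), Subtype.ext (T_tau θ d (i + 1)).symm⟩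
  · intro i hi
    rw [Submodule.mem_span_singleton]
    exact ⟨Th θ d (i + 1), Subtype.ext (T_rho θ d hθ β γ hrec i hi).symm⟩
  · intro h0
    have h1 := congrArg (fun f => ((f (tauV θ d 1 hd) : degreeLE K (d : WithBot ℕ)) : K[X])) h0
    have h2 : T θ d (tau θ 1) = 0 := h1
    rw [T_tau, smul_eq_zero] at h2
    rcases h2 with h2 | h2
    · rw [Th_succ, Th_zero, zero_add, Nat.sub_zero, sub_eq_zero] at h2
      have := hθ (by simp) (by simp) h2
      omega
    · exact (seq θ).ne_zero 0 h2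

end Pool.Agent.Results.MP_87e037_al.Lowering
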